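import Mathlib

set_option autoImplicit false

open MeasureTheory Metric Set Filter Topology
open scoped ENNReal NNReal Pointwise

namespace Pool.Agent.Results.MP_577a3c_an.RoughOsc

noncomputable section

/-- The truncated integral of Omega(y/|y|) |y|^{-d} f(x - y) over |y| > eps. -/
def truncRough {d : ℕ} (Ω f : EuclideanSpace ℝ (Fin d) → ℝ) (x : EuclideanSpace ℝ (Fin d))
    (ε : ℝ) : ℝ :=
  ∫ y in {y : EuclideanSpace ℝ (Fin d) | ε < ‖y‖}, Ω (‖y‖⁻¹ • y) / ‖y‖ ^ d * f (x - y)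

/-- The rough homogeneous singular integral T_Omega f(x): the limit of the truncated integrals
as eps tends to 0 from the right. -/
def roughSI {d : ℕ} (Ω f : EuclideanSpace ℝ (Fin d) → ℝ) (x : EuclideanSpace ℝ (Fin d)) : ℝ :=
  limUnder (𝓝[>] (0 : ℝ)) (truncRough Ω f x)

/-- g_B = T_Omega (f 1_{complement of 2B}) for the ball B = ball c rho. -/
def farPart {d : ℕ} (Ω f : EuclideanSpace ℝ (Fin d) → ℝ) (c : EuclideanSpace ℝ (Fin d)) (ρ : ℝ)
    (x : EuclideanSpace ℝ (Fin d)) : ℝ :=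
  roughSI Ω ((ball c (2 * ρ))ᶜ.indicator f) x

/-- O(f;B), the square root of |B|^{-2} times the double integral over B x B of
|g_B(x) - g_B(y)|^2, for B = ball c rho. -/
def oscFar {d : ℕ} (Ω f : EuclideanSpace ℝ (Fin d) → ℝ) (c : EuclideanSpace ℝ (Fin d))
    (ρ : ℝ) : ℝ≥0∞ :=
  ((volume (ball c ρ))⁻¹ ^ 2 *
    ∫⁻ x in ball c ρ, ∫⁻ y in ball c ρ, ‖farPart Ω f c ρ x - farPart Ω f c ρ y‖ₑ ^ 2) ^ (1 / 2 : ℝ)

/-- M_r(f;B), the supremum over all balls B' containing B = ball c rho of the L^r average of f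
over B'. -/
def maxAvg {d : ℕ} (r : ℝ) (f : EuclideanSpace ℝ (Fin d) → ℝ) (c : EuclideanSpace ℝ (Fin d))
    (ρ : ℝ) : ℝ≥0∞ :=
  ⨆ (z : EuclideanSpace ℝ (Fin d)) (t : ℝ) (_ : ball c ρ ⊆ ball z t),
    ((volume (ball z t))⁻¹ * ∫⁻ y in ball z t, ‖f y‖ₑ ^ r) ^ (1 / r)

/-- Sanity check: for x in B the limit defining g_B(x) exists; the truncated integrals are
eventually equal to the full integral. -/
theorem farPart_tendsto {d : ℕ} (Ω f : EuclideanSpace ℝ (Fin d) → ℝ)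
    (c : EuclideanSpace ℝ (Fin d)) {ρ : ℝ} (hρ : 0 < ρ) {x : EuclideanSpace ℝ (Fin d)}
    (hx : x ∈ ball c ρ) :
    Tendsto (truncRough Ω ((ball c (2 * ρ))ᶜ.indicator f) x) (𝓝[>] (0 : ℝ))
      (𝓝 (∫ y, Ω (‖y‖⁻¹ • y) / ‖y‖ ^ d * (ball c (2 * ρ))ᶜ.indicator f (x - y))) := by
  refine Tendsto.congr' ?_ tendsto_const_nhds
  have : ∀ᶠ ε in 𝓝[>] (0:ℝ), ε < ρ := by
    refine eventually_nhdsWithin_of_eventually_nhds ?_
    exact eventually_lt_nhds hρ
  filter_upwards [this] with ε hε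
  unfold truncRough
  rw [setIntegral_eq_integral_of_forall_compl_eq_zero]
  intro y hy
  simp only [mem_ofPred_eq, not_lt] at hy
  rw [indicator_of_notMem, mul_zero]
  simp only [mem_compl_iff, not_not, mem_ball, dist_eq_norm] at hx ⊢
  calc ‖x - y - c‖ = ‖(x - c) - y‖ := by congr 1; abel
    _ ≤ ‖x - c‖ + ‖y‖ := norm_sub_le _ _
    _ < 2 * ρ := by linarith

/-- Sanity check: for x in B, g_B(x) is the convergent full integral. -/
theorem farPart_eq_integral {d : ℕ} (Ω f : EuclideanSpace ℝ (Fin d) → ℝ)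
    (c : EuclideanSpace ℝ (Fin d)) {ρ : ℝ} (hρ : 0 < ρ) {x : EuclideanSpace ℝ (Fin d)}
    (hx : x ∈ ball c ρ) :
    farPart Ω f c ρ x = ∫ y, Ω (‖y‖⁻¹ • y) / ‖y‖ ^ d * (ball c (2 * ρ))ᶜ.indicator f (x - y) :=
  (farPart_tendsto Ω f c hρ hx).limUnder_eq

def sqw (t : ℝ) : ℝ := if Int.fract t < 1 / 2 then 1 else -1

def slopeFn (s : ℝ) : ℝ := sqw ((2 : ℝ) ^ ⌊1 / s⌋₊ * s)

def Om {k : ℕ} (w : EuclideanSpace ℝ (Fin (k+2))) : ℝ :=
  if 0 < w 0 then slopeFn (w 1 / w 0) else if w 0 < 0 then -slopeFn (w 1 / w 0) else 0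

lemma sqw_meas : Measurable sqw := by
  unfold sqw
  refine Measurable.ite (measurableSet_lt measurable_fract measurable_const) measurable_const measurable_const

lemma slopeFn_meas : Measurable slopeFn := by
  unfold slopeFn
  refine sqw_meas.comp ?_
  refine Measurable.mul ?_ measurable_id
  have h1 : Measurable (fun n : ℕ => (2:ℝ)^n) := measurable_from_top
  exact h1.comp (Nat.measurable_floor.comp (measurable_const.div measurable_id))

lemma coord_meas {k : ℕ} (i : Fin (k+2)) : Measurable (fun w : EuclideanSpace ℝ (Fin (k+2)) => (w i : ℝ)) := by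
  fun_prop

lemma div_meas {k : ℕ} : Measurable (fun w : EuclideanSpace ℝ (Fin (k+2)) => (w 1 : ℝ) / (w 0 : ℝ)) := by
  fun_prop

lemma Om_meas {k : ℕ} : Measurable (Om (k := k)) := by
  unfold Om
  refine Measurable.ite (measurableSet_lt measurable_const (coord_meas 0)) ?_ ?_
  · exact slopeFn_meas.comp div_meas
  · refine Measurable.ite (measurableSet_lt (coord_meas 0) measurable_const) ?_ measurable_const
    exact (slopeFn_meas.comp div_meas).neg

lemma sqw_abs (t : ℝ) : |sqw t| = 1 := by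
  unfold sqw; split_ifs <;> simp

lemma Om_abs {k : ℕ} (w : EuclideanSpace ℝ (Fin (k+2))) : |Om w| ≤ 1 := by
  unfold Om slopeFn
  split_ifs <;> simp [sqw_abs]

lemma Om_neg {k : ℕ} (w : EuclideanSpace ℝ (Fin (k+2))) : Om (-w) = - Om w := by
  unfold Om
  simp only [PiLp.neg_apply, neg_div_neg_eq]
  rcases lt_trichotomy (w 0) 0 with h | h | h
  · have h' : ¬ (0 < w 0) := by linarith
    have h1 : 0 < - w 0 := by linarith
    rw [if_pos h1, if_neg h', if_pos h, neg_neg]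
  · simp [h]
  · have h' : ¬ (w 0 < 0) := by linarith
    have h1 : ¬ 0 < - w 0 := by linarith
    have h2 : - w 0 < 0 := by linarith
    simp [h, h', h1, h2]

lemma Om_smul {k : ℕ} (w : EuclideanSpace ℝ (Fin (k+2))) {t : ℝ} (ht : 0 < t) : Om (t • w) = Om w := by
  unfold Om
  simp only [PiLp.smul_apply, smul_eq_mul, mul_div_mul_left _ _ ht.ne']
  have h1 : (0 < t * w 0) ↔ (0 < w 0) := mul_pos_iff_of_pos_left ht
  have h2 : (t * w 0 < 0) ↔ (w 0 < 0) := by
    constructor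
    · intro h; by_contra h'; push Not at h'; nlinarith
    · intro h; nlinarith
  simp only [h1, h2]

/-- neg on the sphere preserves the surface measure -/
lemma sphere_neg {k : ℕ} :
    MeasurePreserving (fun w : sphere (0 : EuclideanSpace ℝ (Fin (k+2))) 1 => -w)
      (volume : Measure (EuclideanSpace ℝ (Fin (k+2)))).toSphere
      (volume : Measure (EuclideanSpace ℝ (Fin (k+2)))).toSphere := by
  have hm : Measurable (fun w : sphere (0 : EuclideanSpace ℝ (Fin (k+2))) 1 => -w) := by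
    exact continuous_neg.measurable
  refine ⟨hm, ?_⟩
  ext s hs
  rw [Measure.map_apply hm hs, Measure.toSphere_apply' _ (hm hs), Measure.toSphere_apply' _ hs]
  congr 1
  have : Ioo (0 : ℝ) 1 • ((↑) '' ((fun w : sphere (0 : EuclideanSpace ℝ (Fin (k+2))) 1 => -w) ⁻¹' s) : Set (EuclideanSpace ℝ (Fin (k+2))))
     = - (Ioo (0 : ℝ) 1 • ((↑) '' s : Set (EuclideanSpace ℝ (Fin (k+2))))) := by
    ext v
    simp only [Set.mem_smul, Set.mem_neg, Set.mem_image, Set.mem_preimage]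
    constructor
    · rintro ⟨t, ht, y, ⟨w, hw, rfl⟩, rfl⟩
      exact ⟨t, ht, _, ⟨-w, hw, rfl⟩, by simp⟩
    · rintro ⟨t, ht, y, ⟨w, hw, rfl⟩, h⟩
      refine ⟨t, ht, _, ⟨-w, by simpa using hw, rfl⟩, ?_⟩
      rw [← neg_eq_iff_eq_neg] at h
      simpa using h
  rw [this, Measure.measure_neg]

lemma Om_mean {k : ℕ} :
    ∫ w : sphere (0 : EuclideanSpace ℝ (Fin (k+2))) 1, Om (w : EuclideanSpace ℝ (Fin (k+2)))
      ∂(volume : Measure (EuclideanSpace ℝ (Fin (k+2)))).toSphere = 0 := by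
  have h := (sphere_neg (k := k)).integral_comp
    (Homeomorph.neg (sphere (0 : EuclideanSpace ℝ (Fin (k+2))) 1)).measurableEmbedding
    (fun w => Om (w : EuclideanSpace ℝ (Fin (k+2))))
  have h2 : (fun w : sphere (0 : EuclideanSpace ℝ (Fin (k+2))) 1 => Om ((-w : sphere (0 : EuclideanSpace ℝ (Fin (k+2))) 1) : EuclideanSpace ℝ (Fin (k+2))))
     = fun w : sphere (0 : EuclideanSpace ℝ (Fin (k+2))) 1 => - Om (w : EuclideanSpace ℝ (Fin (k+2))) := by
    ext w
    rw [← Om_neg]; rfl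
  rw [h2, integral_neg] at h
  linarith

def good (j : ℕ) (u : ℝ) : Prop :=
  1 / ((j : ℝ) + 1) + 1 / 2 ^ j < u ∧ u < 1 / (j : ℝ) - 1 / 2 ^ j ∧
    Int.fract (2 ^ j * u) < 1 / 64

lemma floor_val {j : ℕ} (hj : 10 ≤ j) {u s : ℝ} (hu : good j u) (hs : |s - u| ≤ (1/6)/2^j) :
    ⌊1 / s⌋₊ = j := by
  obtain ⟨h1, h2, h3⟩ := hu
  have hj0 : (0:ℝ) < j := by positivity
  have hp : (0:ℝ) < 1 / 2 ^ j := by positivity
  have h6 : (1/6 : ℝ)/2^j = (1/6) * (1 / 2^j) := by ring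
  rw [h6] at hs
  rw [abs_le] at hs
  have hs1 : 1 / ((j : ℝ) + 1) < s := by nlinarith [hs.1]
  have hs2 : s < 1 / (j:ℝ) := by nlinarith [hs.2]
  have hj1 : (0:ℝ) < 1 / ((j : ℝ) + 1) := by positivity
  have hs0 : 0 < s := lt_trans hj1 hs1
  rw [Nat.floor_eq_iff (by positivity)]
  constructor
  · rw [le_div_iff₀ hs0]
    rw [lt_div_iff₀ hj0] at hs2
    linarith
  · rw [div_lt_iff₀ hs0]
    rw [div_lt_iff₀ (by positivity)] at hs1
    linarith

lemma slope_pos {j : ℕ} (hj : 10 ≤ j) {u s : ℝ} (hu : good j u) (h1 : (1/50)/2^j ≤ s - u)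
    (h2 : s - u ≤ (1/6)/2^j) : slopeFn s = 1 := by
  have hp : (0:ℝ) < 2 ^ j := by positivity
  have h0 : (0:ℝ) < (1/50)/2^j := by positivity
  have hfl := floor_val hj hu (s := s) (by rw [abs_le]; constructor <;> linarith)
  unfold slopeFn
  rw [hfl]
  have e1 : (1/50 : ℝ) ≤ 2^j * (s - u) := by
    rw [div_le_iff₀ hp] at h1; linarith
  have e2 : 2^j * (s - u) ≤ (1/6 : ℝ) := by
    rw [le_div_iff₀ hp] at h2; linarith
  obtain ⟨-, -, h3⟩ := hu
  have h4 := Int.fract_nonneg (2 ^ j * u)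
  have : Int.fract (2 ^ j * s) = Int.fract (2 ^ j * u) + 2^j * (s - u) := by
    rw [Int.fract_eq_iff]
    refine ⟨by linarith, by linarith, ⌊2 ^ j * u⌋, ?_⟩
    have := Int.floor_add_fract (2 ^ j * u)
    linarith
  unfold sqw
  rw [if_pos]
  rw [this]; linarith

lemma slope_neg {j : ℕ} (hj : 10 ≤ j) {u s : ℝ} (hu : good j u) (h1 : (1/50)/2^j ≤ u - s)
    (h2 : u - s ≤ (1/6)/2^j) : slopeFn s = -1 := by
  have hp : (0:ℝ) < 2 ^ j := by positivity
  have h0 : (0:ℝ) < (1/50)/2^j := by positivity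
  have hfl := floor_val hj hu (s := s) (by rw [abs_le]; constructor <;> linarith)
  unfold slopeFn
  rw [hfl]
  have e1 : (1/50 : ℝ) ≤ 2^j * (u - s) := by
    rw [div_le_iff₀ hp] at h1; linarith
  have e2 : 2^j * (u - s) ≤ (1/6 : ℝ) := by
    rw [le_div_iff₀ hp] at h2; linarith
  obtain ⟨-, -, h3⟩ := hu
  have h4 := Int.fract_nonneg (2 ^ j * u)
  have : Int.fract (2 ^ j * s) = Int.fract (2 ^ j * u) - 2^j * (u - s) + 1 := by
    rw [Int.fract_eq_iff]
    refine ⟨by linarith, by linarith, ⌊2 ^ j * u⌋ - 1, ?_⟩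
    have := Int.floor_add_fract (2 ^ j * u)
    push_cast
    linarith
  unfold sqw
  rw [if_neg]
  rw [this]; linarith

/-- the j-th region -/
def G (k j : ℕ) : Set (EuclideanSpace ℝ (Fin (k+2))) :=
  {y | 8 * 2 ^ j ≤ - y 0 ∧ - y 0 < 16 * 2 ^ j ∧ good j (y 1 / y 0) ∧ ∀ i, |y i| ≤ - y 0}

lemma good_bound {j : ℕ} (hj : 10 ≤ j) {u : ℝ} (hu : good j u) : 0 < u ∧ u < 1 / 10 := by
  obtain ⟨h1, h2, -⟩ := hu
  have hj' : (10:ℝ) ≤ j := by exact_mod_cast hj
  have hp : (0:ℝ) < 1 / 2 ^ j := by positivity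
  have h3 : 1 / (j:ℝ) ≤ 1 / 10 := one_div_le_one_div_of_le (by norm_num) hj'
  have h4 : (0:ℝ) < 1 / ((j : ℝ) + 1) := by positivity
  constructor <;> linarith

lemma coord_le {k : ℕ} (x : EuclideanSpace ℝ (Fin (k+2))) (i : Fin (k+2)) : |x i| ≤ ‖x‖ := by
  have := PiLp.norm_apply_le x i
  simpa using this

lemma shift_bounds {j : ℕ} (hj : 10 ≤ j) {x0 x1 y0 y1 : ℝ} (h0 : |x0| < 1) (h1 : |x1| < 1)
    (hy : 8 * 2 ^ j ≤ - y0) (hy' : - y0 < 16 * 2 ^ j) (hu : good j (y1 / y0)) :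
    0 < x0 - y0 ∧
    (1/2 < x1 → (1/50)/2^j ≤ (x1 - y1) / (x0 - y0) - y1 / y0 ∧
       (x1 - y1) / (x0 - y0) - y1 / y0 ≤ (1/6)/2^j) ∧
    (x1 < -(1/2) → (1/50)/2^j ≤ y1 / y0 - (x1 - y1) / (x0 - y0) ∧
       y1 / y0 - (x1 - y1) / (x0 - y0) ≤ (1/6)/2^j) := by
  have hb := good_bound hj hu
  set u := y1 / y0 with hudef
  have h2 : (1024:ℝ) ≤ 2^j := by
    calc (1024:ℝ) = 2^10 := by norm_num
      _ ≤ 2^j := pow_le_pow_right₀ (by norm_num) hj
  set P : ℝ := 2^j with hP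
  have hy0 : y0 < 0 := by linarith
  have hy1 : y1 = u * y0 := by rw [hudef, div_mul_cancel₀ _ hy0.ne]
  rw [abs_lt] at h0 h1
  have hz : 0 < x0 - y0 := by linarith
  have key : (x1 - y1) / (x0 - y0) - u = (x1 - x0 * u) / (x0 - y0) := by
    rw [hy1]; field_simp; ring
  have key' : u - (x1 - y1) / (x0 - y0) = (- x1 + x0 * u) / (x0 - y0) := by
    rw [hy1]; field_simp; ring
  have hxu : |x0 * u| ≤ 1/10 := by
    rw [abs_mul]
    have : |x0| ≤ 1 := by rw [abs_le]; constructor <;> linarith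
    have h3 : |u| ≤ 1/10 := by rw [abs_of_pos hb.1]; linarith
    calc |x0| * |u| ≤ 1 * (1/10) := mul_le_mul this h3 (abs_nonneg _) (by norm_num)
      _ = 1/10 := by norm_num
  rw [abs_le] at hxu
  have hPpos : 0 < P := by linarith
  refine ⟨hz, ?_, ?_⟩
  · intro hx
    rw [key]
    constructor
    · rw [div_le_div_iff₀ hPpos hz]
      nlinarith
    · rw [div_le_div_iff₀ hz hPpos]
      nlinarith
  · intro hx
    rw [key']
    constructor
    · rw [div_le_div_iff₀ hPpos hz]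
      nlinarith
    · rw [div_le_div_iff₀ hz hPpos]
      nlinarith

lemma om_pos {k j : ℕ} (hj : 10 ≤ j) {x y : EuclideanSpace ℝ (Fin (k+2))} (hx : ‖x‖ < 1)
    (hy : y ∈ G k j) (h : 1 / 2 < x 1) : Om (x - y) = 1 := by
  obtain ⟨h1, h2, h3, h4⟩ := hy
  have hb := shift_bounds hj ((coord_le x 0).trans_lt hx) ((coord_le x 1).trans_lt hx) h1 h2 h3
  unfold Om
  simp only [PiLp.sub_apply]
  rw [if_pos hb.1]
  exact slope_pos hj h3 (hb.2.1 h).1 (hb.2.1 h).2

lemma om_neg {k j : ℕ} (hj : 10 ≤ j) {x y : EuclideanSpace ℝ (Fin (k+2))} (hx : ‖x‖ < 1)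
    (hy : y ∈ G k j) (h : x 1 < -(1 / 2)) : Om (x - y) = -1 := by
  obtain ⟨h1, h2, h3, h4⟩ := hy
  have hb := shift_bounds hj ((coord_le x 0).trans_lt hx) ((coord_le x 1).trans_lt hx) h1 h2 h3
  unfold Om
  simp only [PiLp.sub_apply]
  rw [if_pos hb.1]
  exact slope_neg hj h3 (hb.2.2 h).1 (hb.2.2 h).2

lemma pow_bound {j : ℕ} (hj : 10 ≤ j) : 6 * j * (j + 1) ≤ 2 ^ j := by
  induction j, hj using Nat.le_induction with
  | base => norm_num
  | succ n hn ih =>
    rw [pow_succ]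
    nlinarith

def wid (j : ℕ) : ℝ := 1 / (j : ℝ) - 1 / ((j : ℝ) + 1) - 3 / 2 ^ j

def tau (j a b : ℕ) : ℝ := 1 / ((j : ℝ) + 1) + 2 / 2 ^ j - a * wid j - (b / 64) / 2 ^ j

lemma wid_bound {j : ℕ} (hj : 10 ≤ j) : 1 ≤ wid j * (2 * j * (j + 1) : ℕ) := by
  have h := pow_bound hj
  have h' : (6:ℝ) * j * (j + 1) ≤ 2 ^ j := by exact_mod_cast h
  have hj0 : (0:ℝ) < j := by positivity
  have hp : (0:ℝ) < 2 ^ j := by positivity
  unfold wid
  push_cast
  have h3 : 3 / (2:ℝ) ^ j * (2 * j * (j + 1)) ≤ 1 := by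
    rw [div_mul_eq_mul_div, div_le_one hp]; linarith
  have h4 : (1 / (j : ℝ) - 1 / ((j : ℝ) + 1)) * (2 * j * (j + 1)) = 2 := by
    field_simp; ring
  calc (1:ℝ) = 2 - 1 := by norm_num
    _ ≤ (1 / (j : ℝ) - 1 / ((j : ℝ) + 1)) * (2 * j * (j + 1)) - 3 / (2:ℝ) ^ j * (2 * j * (j + 1)) := by
        rw [h4]; linarith
    _ = _ := by ring

lemma exists_shift {j : ℕ} (hj : 10 ≤ j) {v : ℝ} (h0 : 0 < v) (h1 : v < 1) :
    ∃ q ∈ Finset.range (2 * j * (j + 1)) ×ˢ Finset.range 64, good j (v + tau j q.1 q.2) := by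
  have hw := wid_bound hj
  have hj0 : (0:ℝ) < j := by positivity
  have hp : (0:ℝ) < 2 ^ j := by positivity
  have hwpos : 0 < wid j := by
    by_contra hcon
    push Not at hcon
    have : wid j * (2 * j * (j + 1) : ℕ) ≤ 0 := mul_nonpos_of_nonpos_of_nonneg hcon (by positivity)
    linarith
  set a := ⌊v / wid j⌋₊ with ha
  have ha1 : (a:ℝ) * wid j ≤ v := by
    rw [← le_div_iff₀ hwpos]; exact Nat.floor_le (by positivity)
  have ha2 : v < (a + 1) * wid j := by
    rw [← div_lt_iff₀ hwpos]; exact Nat.lt_floor_add_one _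
  have ha3 : a < 2 * j * (j + 1) := by
    rw [ha, Nat.floor_lt (by positivity), div_lt_iff₀ hwpos]
    linarith
  set v2 := v + 1 / ((j : ℝ) + 1) + 2 / 2 ^ j - a * wid j with hv2
  set φ := Int.fract (2 ^ j * v2) with hφ
  have hφ0 : 0 ≤ φ := Int.fract_nonneg _
  have hφ1 : φ < 1 := Int.fract_lt_one _
  set b := ⌊64 * φ⌋₊ with hb
  have hb1 : (b:ℝ) ≤ 64 * φ := Nat.floor_le (by positivity)
  have hb2 : 64 * φ < b + 1 := Nat.lt_floor_add_one _
  have hb3 : b < 64 := by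
    rw [hb, Nat.floor_lt (by positivity)]
    norm_num; linarith
  refine ⟨(a, b), by simp [ha3, hb3], ?_⟩
  have hb0 : (0:ℝ) ≤ b := by positivity
  have hb63 : (b:ℝ) / 64 < 1 := by
    rw [div_lt_one (by norm_num)]; exact_mod_cast hb3
  have e : v + tau j a b = v2 - (b / 64) / 2 ^ j := by
    unfold tau; rw [hv2]; ring
  have hsm : ((b:ℝ) / 64) / 2 ^ j < 1 / 2 ^ j := by
    rw [div_lt_div_iff_of_pos_right hp]; exact hb63
  have hsm0 : 0 ≤ ((b:ℝ) / 64) / 2 ^ j := by positivity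
  have h21 : (2:ℝ) / 2 ^ j = 2 * (1 / 2^j) := by ring
  have h31 : (3:ℝ) / 2 ^ j = 3 * (1 / 2^j) := by ring
  show good j (v + tau j a b)
  rw [e]
  refine ⟨?_, ?_, ?_⟩
  · rw [hv2, h21]; linarith
  · rw [hv2, h21]
    have : v - a * wid j < wid j := by linarith
    unfold wid at this ⊢
    rw [h31] at this ⊢
    linarith
  · have : Int.fract (2 ^ j * (v2 - (b / 64) / 2 ^ j)) = φ - b / 64 := by
      rw [Int.fract_eq_iff]
      refine ⟨by linarith, by linarith, ⌊2 ^ j * v2⌋, ?_⟩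
      have h5 := Int.floor_add_fract (2 ^ j * v2)
      have h6 : (2:ℝ) ^ j * (v2 - (b / 64) / 2 ^ j) = 2 ^ j * v2 - b / 64 := by
        field_simp
      rw [h6]
      linarith
    rw [this]
    linarith

lemma G_meas (k j : ℕ) : MeasurableSet (G k j) := by
  have h1 : MeasurableSet {y : EuclideanSpace ℝ (Fin (k+2)) | (8:ℝ) * 2 ^ j ≤ - y 0} :=
    measurableSet_le measurable_const (by fun_prop)
  have h2 : MeasurableSet {y : EuclideanSpace ℝ (Fin (k+2)) | - y 0 < (16:ℝ) * 2 ^ j} :=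
    measurableSet_lt (by fun_prop) measurable_const
  have hq : Measurable (fun y : EuclideanSpace ℝ (Fin (k+2)) => (y 1 : ℝ) / (y 0 : ℝ)) := by
    fun_prop
  have hg : MeasurableSet {u : ℝ | good j u} := by
    have e : {u : ℝ | good j u} = {u : ℝ | 1 / ((j : ℝ) + 1) + 1 / 2 ^ j < u} ∩
        ({u : ℝ | u < 1 / (j : ℝ) - 1 / 2 ^ j} ∩ {u : ℝ | Int.fract (2 ^ j * u) < 1 / 64}) := rfl
    rw [e]
    refine MeasurableSet.inter (measurableSet_lt measurable_const measurable_id)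
      (MeasurableSet.inter (measurableSet_lt measurable_id measurable_const) ?_)
    exact measurableSet_lt (measurable_fract.comp (measurable_const.mul measurable_id))
      measurable_const
  have h3 : MeasurableSet {y : EuclideanSpace ℝ (Fin (k+2)) | good j (y 1 / y 0)} := hq hg
  have h4 : MeasurableSet (⋂ i : Fin (k+2), {y : EuclideanSpace ℝ (Fin (k+2)) | |y i| ≤ - y 0}) :=
    MeasurableSet.iInter fun i => measurableSet_le (by fun_prop) (by fun_prop)
  have : G k j = {y | (8:ℝ) * 2 ^ j ≤ - y 0} ∩ ({y | - y 0 < (16:ℝ) * 2 ^ j} ∩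
      ({y | good j (y 1 / y 0)} ∩ ⋂ i : Fin (k+2), {y | |y i| ≤ - y 0})) := by
    ext y
    simp [G]
  rw [this]
  exact h1.inter (h2.inter (h3.inter h4))

/-- scaled shear -/
def shear (k : ℕ) (R t : ℝ) : EuclideanSpace ℝ (Fin (k+2)) →ₗ[ℝ] EuclideanSpace ℝ (Fin (k+2)) :=
  R • LinearMap.transvection
    ((EuclideanSpace.proj (0 : Fin (k+2)) : EuclideanSpace ℝ (Fin (k+2)) →L[ℝ] ℝ) :
      Module.Dual ℝ (EuclideanSpace ℝ (Fin (k+2))))
    (t • EuclideanSpace.single (1 : Fin (k+2)) (1:ℝ))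

lemma shear_det (k : ℕ) (R t : ℝ) : LinearMap.det (shear k R t) = R ^ (k+2) := by
  unfold shear
  rw [LinearMap.det_smul, LinearMap.transvection.det]
  simp

lemma shear_apply (k : ℕ) (R t : ℝ) (y : EuclideanSpace ℝ (Fin (k+2))) (i : Fin (k+2)) :
    (shear k R t y) i = R * (y i + y 0 * (t * if i = 1 then 1 else 0)) := by
  unfold shear
  simp only [LinearMap.smul_apply, LinearMap.transvection.apply, PiLp.smul_apply, PiLp.add_apply,
    smul_eq_mul, PiLp.single_apply]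
  rfl

def p0 (k : ℕ) : EuclideanSpace ℝ (Fin (k+2)) :=
  WithLp.toLp 2 (fun i => if i = 0 then -(3/2 : ℝ) else if i = 1 then -(1/2) else 0)

lemma cover {k j : ℕ} (hj : 10 ≤ j) : ball (p0 k) (1/4) ⊆
    ⋃ q ∈ Finset.range (2 * j * (j + 1)) ×ˢ Finset.range 64,
      (shear k (8 * 2 ^ j) (tau j q.1 q.2)) ⁻¹' (G k j) := by
  intro y hy
  rw [mem_ball, dist_eq_norm] at hy
  have hc : ∀ i, |y i - p0 k i| < 1/4 := by
    intro i
    have := coord_le (y - p0 k) i
    simp only [PiLp.sub_apply] at this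
    exact this.trans_lt hy
  have c0 := hc 0
  have c1 := hc 1
  have e10 : (1 : Fin (k+2)) ≠ 0 := by simp
  simp only [p0, e10, if_true, if_false] at c0 c1
  rw [abs_lt] at c0 c1
  have hy0 : y 0 < 0 := by linarith
  have hv0 : 0 < y 1 / y 0 := div_pos_of_neg_of_neg (by linarith) hy0
  have hv1 : y 1 / y 0 < 1 := by
    rw [div_lt_one_of_neg hy0]; linarith
  obtain ⟨q, hq, hg⟩ := exists_shift hj hv0 hv1
  simp only [mem_iUnion]
  refine ⟨q, hq, ?_⟩
  have hR : (0:ℝ) < 8 * 2 ^ j := by positivity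
  show shear k (8 * 2 ^ j) (tau j q.1 q.2) y ∈ G k j
  have a0 : (shear k (8 * 2 ^ j) (tau j q.1 q.2) y) 0 = 8 * 2 ^ j * y 0 := by
    rw [shear_apply]; simp
  have a1 : (shear k (8 * 2 ^ j) (tau j q.1 q.2) y) 1 = 8 * 2 ^ j * (y 1 + y 0 * tau j q.1 q.2) := by
    rw [shear_apply]; simp
  have asl : (8 * 2 ^ j * (y 1 + y 0 * tau j q.1 q.2)) / (8 * 2 ^ j * y 0) = y 1 / y 0 + tau j q.1 q.2 := by
    rw [mul_div_mul_left _ _ hR.ne', add_div, mul_div_cancel_left₀ _ hy0.ne]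
  refine ⟨?_, ?_, ?_, ?_⟩
  · rw [a0]; nlinarith
  · rw [a0]; nlinarith
  · rw [a0, a1, asl]; exact hg
  · intro i
    rw [a0]
    by_cases hi : i = 1
    · subst hi
      rw [a1]
      have hb := good_bound hj hg
      have : y 1 + y 0 * tau j q.1 q.2 = (y 1 / y 0 + tau j q.1 q.2) * y 0 := by
        rw [add_mul, div_mul_cancel₀ _ hy0.ne]; ring
      rw [this, abs_mul, abs_of_pos hR, abs_mul, abs_of_pos hb.1, abs_of_neg hy0]
      have : (y 1 / y 0 + tau j q.1 q.2) * (-y 0) ≤ 1 * (-y 0) :=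
        mul_le_mul_of_nonneg_right (by linarith) (by linarith)
      nlinarith
    · rw [shear_apply]
      simp only [hi, if_false, mul_zero, add_zero]
      rw [abs_mul, abs_of_pos hR]
      have : |y i| ≤ - y 0 := by
        by_cases hi0 : i = 0
        · subst hi0; rw [abs_of_neg hy0]
        · have := hc i
          simp only [p0, hi, hi0, if_false, sub_zero] at this
          linarith
      nlinarith

lemma vol_lower {k j : ℕ} (hj : 10 ≤ j) :
    volume (ball (p0 k) (1/4)) ≤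
      ((2 * j * (j + 1) * 64 : ℕ) : ℝ≥0∞) *
        (ENNReal.ofReal (((8 * 2 ^ j : ℝ) ^ (k+2))⁻¹) * volume (G k j)) := by
  refine (measure_mono (cover hj)).trans ?_
  refine (measure_biUnion_finset_le _ _).trans ?_
  have hR : (0:ℝ) < 8 * 2 ^ j := by positivity
  have : ∀ q ∈ Finset.range (2 * j * (j + 1)) ×ˢ Finset.range 64,
      volume ((shear k (8 * 2 ^ j) (tau j q.1 q.2)) ⁻¹' (G k j)) =
        ENNReal.ofReal (((8 * 2 ^ j : ℝ) ^ (k+2))⁻¹) * volume (G k j) := by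
    intro q _
    have hdet : LinearMap.det (shear k (8 * 2 ^ j) (tau j q.1 q.2)) ≠ 0 := by
      rw [shear_det]; positivity
    rw [Measure.addHaar_preimage_linearMap volume hdet, shear_det, abs_of_pos (by positivity)]
  rw [Finset.sum_congr rfl this, Finset.sum_const, Finset.card_product, Finset.card_range,
    Finset.card_range, nsmul_eq_mul]

lemma G_norm_lower {k j : ℕ} {y : EuclideanSpace ℝ (Fin (k+2))} (hy : y ∈ G k j) :
    8 * 2 ^ j ≤ ‖y‖ := by
  have h := coord_le y 0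
  have h2 := neg_le_abs (y 0)
  have h1 := hy.1
  linarith

lemma norm_le_sum {k : ℕ} (y : EuclideanSpace ℝ (Fin (k+2))) {M : ℝ} (hM : ∀ i, |y i| ≤ M) :
    ‖y‖ ≤ (k+2) * M := by
  have hM0 : 0 ≤ M := (abs_nonneg _).trans (hM 0)
  rw [EuclideanSpace.norm_eq]
  apply Real.sqrt_le_iff.mpr
  refine ⟨by positivity, ?_⟩
  have : ∑ i : Fin (k+2), ‖y i‖ ^ 2 ≤ ∑ i : Fin (k+2), M ^ 2 := by
    apply Finset.sum_le_sum
    intro i _
    rw [Real.norm_eq_abs]
    exact pow_le_pow_left₀ (abs_nonneg _) (hM i) 2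
  refine this.trans ?_
  simp only [Finset.sum_const, Finset.card_univ, Fintype.card_fin, nsmul_eq_mul]
  push_cast
  have : (1:ℝ) ≤ k + 2 := by
    have : (0:ℝ) ≤ k := by positivity
    linarith
  rw [mul_pow]
  have h3 : ((k:ℝ)+2) ≤ ((k:ℝ)+2)^2 := by nlinarith
  exact mul_le_mul_of_nonneg_right h3 (by positivity)

lemma G_norm_upper {k j : ℕ} {y : EuclideanSpace ℝ (Fin (k+2))} (hy : y ∈ G k j) :
    ‖y‖ ≤ (k+2) * (16 * 2 ^ j) := by
  apply norm_le_sum
  intro i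
  have h1 := hy.2.2.2 i
  have h2 := hy.2.1
  linarith

lemma G_fin (k j : ℕ) : volume (G k j) ≠ ⊤ := by
  have : G k j ⊆ closedBall 0 ((k+2) * (16 * 2 ^ j)) := by
    intro y hy
    rw [mem_closedBall, dist_zero_right]
    exact G_norm_upper hy
  exact ((measure_mono this).trans_lt measure_closedBall_lt_top).ne

/-- kernel -/
def Kd (k : ℕ) (z : EuclideanSpace ℝ (Fin (k+2))) : ℝ := Om (‖z‖⁻¹ • z) / ‖z‖ ^ (k+2)

lemma two_pow_ge {j : ℕ} (hj : 10 ≤ j) : (1024:ℝ) ≤ 2^j := by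
  calc (1024:ℝ) = 2^10 := by norm_num
    _ ≤ 2^j := pow_le_pow_right₀ (by norm_num) hj

lemma dist_lower {k j : ℕ} (hj : 10 ≤ j) {x y : EuclideanSpace ℝ (Fin (k+2))} (hx : ‖x‖ < 1)
    (hy : y ∈ G k j) : 1 ≤ ‖x - y‖ := by
  have h1 := G_norm_lower hy
  have h2 := two_pow_ge hj
  have h3 := norm_sub_norm_le y x
  rw [norm_sub_rev] at h3
  linarith

lemma dist_upper {k j : ℕ} (hj : 10 ≤ j) {x y : EuclideanSpace ℝ (Fin (k+2))} (hx : ‖x‖ < 1)
    (hy : y ∈ G k j) : ‖x - y‖ ≤ 3 * (k+2) * (8 * 2 ^ j) := by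
  have h1 := G_norm_upper hy
  have h2 := two_pow_ge hj
  have h3 := norm_sub_le x y
  have h4 : (0:ℝ) ≤ k := by positivity
  nlinarith

lemma Kd_eq {k : ℕ} {z : EuclideanSpace ℝ (Fin (k+2))} (hz : 1 ≤ ‖z‖) :
    Kd k z = Om z / ‖z‖ ^ (k+2) := by
  unfold Kd
  rw [Om_smul z (by positivity)]

lemma Kd_meas (k : ℕ) : Measurable (Kd k) := by
  unfold Kd
  refine Measurable.div (Om_meas.comp ?_) (by fun_prop)
  fun_prop

lemma Kd_bound {k : ℕ} {z : EuclideanSpace ℝ (Fin (k+2))} (hz : 1 ≤ ‖z‖) : |Kd k z| ≤ 1 := by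
  unfold Kd
  rw [abs_div, abs_of_pos (by positivity : 0 < ‖z‖ ^ (k+2))]
  rw [div_le_one (by positivity)]
  exact (Om_abs _).trans (one_le_pow₀ hz)

lemma Kd_intOn {k j : ℕ} (hj : 10 ≤ j) {x : EuclideanSpace ℝ (Fin (k+2))} (hx : ‖x‖ < 1) :
    IntegrableOn (fun y => Kd k (x - y)) (G k j) := by
  refine Measure.integrableOn_of_bounded (M := 1) (G_fin k j) ?_ ?_
  · exact ((Kd_meas k).comp (measurable_const.sub measurable_id)).aestronglyMeasurable
  · rw [ae_restrict_iff' (G_meas k j)]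
    refine Eventually.of_forall fun y hy => ?_
    exact Kd_bound (dist_lower hj hx hy)

/-- relative mass of the j-th region -/
def mass (k j : ℕ) : ℝ := (volume (G k j)).toReal / (8 * 2 ^ j) ^ (k+2)

def Dc (k : ℕ) : ℝ := ((3 * ((k:ℝ)+2)) ^ (k+2))⁻¹

lemma I_pos {k j : ℕ} (hj : 10 ≤ j) {x : EuclideanSpace ℝ (Fin (k+2))} (hx : ‖x‖ < 1)
    (h : 1 / 2 < x 1) : Dc k * mass k j ≤ ∫ y in G k j, Kd k (x - y) := by
  have h1 : ∫ y in G k j, ((3 * ((k:ℝ)+2) * (8 * 2 ^ j)) ^ (k+2))⁻¹ ≤ ∫ y in G k j, Kd k (x - y) := by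
    refine setIntegral_mono_on ?_ (Kd_intOn hj hx) (G_meas k j) ?_
    · exact integrableOn_const (G_fin k j)
    · intro y hy
      rw [Kd_eq (dist_lower hj hx hy), om_pos hj hx hy h, one_div]
      have := dist_lower hj hx hy
      apply inv_anti₀ (by positivity)
      exact pow_le_pow_left₀ (norm_nonneg _) (dist_upper hj hx hy) _
  refine le_trans (le_of_eq ?_) h1
  rw [setIntegral_const, smul_eq_mul, Measure.real, Dc, mass, mul_pow (3 * ((k:ℝ)+2)), mul_inv]
  ring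

lemma I_neg {k j : ℕ} (hj : 10 ≤ j) {x : EuclideanSpace ℝ (Fin (k+2))} (hx : ‖x‖ < 1)
    (h : x 1 < -(1 / 2)) : ∫ y in G k j, Kd k (x - y) ≤ - (Dc k * mass k j) := by
  have h1 : ∫ y in G k j, Kd k (x - y) ≤ ∫ y in G k j, - ((3 * ((k:ℝ)+2) * (8 * 2 ^ j)) ^ (k+2))⁻¹ := by
    refine setIntegral_mono_on (Kd_intOn hj hx) ?_ (G_meas k j) ?_
    · exact integrableOn_const (G_fin k j)
    · intro y hy
      rw [Kd_eq (dist_lower hj hx hy), om_neg hj hx hy h, neg_div, one_div]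
      have := dist_lower hj hx hy
      apply neg_le_neg
      apply inv_anti₀ (by positivity)
      exact pow_le_pow_left₀ (norm_nonneg _) (dist_upper hj hx hy) _
  refine le_trans h1 (le_of_eq ?_)
  rw [setIntegral_const, smul_eq_mul, Measure.real, Dc, mass, mul_pow (3 * ((k:ℝ)+2)), mul_inv]
  ring

/-- test function -/
def ff (k N : ℕ) (A : ℕ → ℝ) (y : EuclideanSpace ℝ (Fin (k+2))) : ℝ :=
  ∑ j ∈ Finset.Ico 10 N, (G k j).indicator (fun _ => A j) y

lemma ff_zero {k N : ℕ} {A : ℕ → ℝ} {y : EuclideanSpace ℝ (Fin (k+2))} (hy : ‖y‖ < 2) :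
    ff k N A y = 0 := by
  unfold ff
  apply Finset.sum_eq_zero
  intro j hj
  apply indicator_of_notMem
  intro h
  have h1 := G_norm_lower h
  have h2 := two_pow_ge (Finset.mem_Ico.mp hj).1
  linarith

lemma ff_int {k N : ℕ} {A : ℕ → ℝ} {x : EuclideanSpace ℝ (Fin (k+2))} (hx : ‖x‖ < 1) :
    ∫ y, Kd k (x - y) * ff k N A y = ∑ j ∈ Finset.Ico 10 N, A j * ∫ y in G k j, Kd k (x - y) := by
  unfold ff
  simp only [Finset.mul_sum]
  have e : ∀ j, (fun y => Kd k (x - y) * (G k j).indicator (fun _ => A j) y) =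
      (G k j).indicator (fun y => A j * Kd k (x - y)) := by
    intro j
    ext y
    by_cases h : y ∈ G k j
    · simp [h, mul_comm]
    · simp [h]
  rw [integral_finsetSum]
  · apply Finset.sum_congr rfl
    intro j hj
    rw [e j, integral_indicator (G_meas k j), integral_const_mul]
  · intro j hj
    rw [e j, integrable_indicator_iff (G_meas k j)]
    exact (Kd_intOn (Finset.mem_Ico.mp hj).1 hx).const_mul _

lemma farPart_eq {k N : ℕ} {A : ℕ → ℝ} {x : EuclideanSpace ℝ (Fin (k+2))} (hx : ‖x‖ < 1) :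
    farPart Om (ff k N A) 0 1 x = ∑ j ∈ Finset.Ico 10 N, A j * ∫ y in G k j, Kd k (x - y) := by
  have hind : (ball (0 : EuclideanSpace ℝ (Fin (k+2))) (2 * 1))ᶜ.indicator (ff k N A) = ff k N A := by
    ext y
    by_cases h : y ∈ ball (0 : EuclideanSpace ℝ (Fin (k+2))) (2 * 1)
    · have h2 : ‖y‖ < 2 := by simpa using h
      rw [ff_zero h2, indicator_of_notMem]
      simpa using h
    · rw [indicator_of_mem]
      simpa using h
  unfold farPart
  rw [hind, ← ff_int hx]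
  unfold roughSI
  apply Tendsto.limUnder_eq
  refine Tendsto.congr' ?_ tendsto_const_nhds
  have : ∀ᶠ ε in 𝓝[>] (0:ℝ), ε < 1 := by
    refine eventually_nhdsWithin_of_eventually_nhds ?_
    exact eventually_lt_nhds one_pos
  filter_upwards [this] with ε hε
  unfold truncRough
  rw [setIntegral_eq_integral_of_forall_compl_eq_zero]
  · rw [← integral_sub_left_eq_self (fun y => Kd k (x - y) * ff k N A y) volume x]
    congr 1
    ext y
    simp [Kd]
  · intro y hy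
    simp only [mem_ofPred_eq, not_lt] at hy
    rw [ff_zero, mul_zero]
    calc ‖x - y‖ ≤ ‖x‖ + ‖y‖ := norm_sub_le x y
      _ < 2 := by linarith

def Lsum (k N : ℕ) (A : ℕ → ℝ) : ℝ := ∑ j ∈ Finset.Ico 10 N, A j * (Dc k * mass k j)

lemma far_pos {k N : ℕ} {A : ℕ → ℝ} (hA : ∀ j, 0 ≤ A j) {x : EuclideanSpace ℝ (Fin (k+2))}
    (hx : ‖x‖ < 1) (h : 1 / 2 < x 1) : Lsum k N A ≤ farPart Om (ff k N A) 0 1 x := by
  rw [farPart_eq hx]
  apply Finset.sum_le_sum
  intro j hj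
  exact mul_le_mul_of_nonneg_left (I_pos (Finset.mem_Ico.mp hj).1 hx h) (hA j)

lemma far_neg {k N : ℕ} {A : ℕ → ℝ} (hA : ∀ j, 0 ≤ A j) {x : EuclideanSpace ℝ (Fin (k+2))}
    (hx : ‖x‖ < 1) (h : x 1 < -(1 / 2)) : farPart Om (ff k N A) 0 1 x ≤ - Lsum k N A := by
  rw [farPart_eq hx, Lsum, ← Finset.sum_neg_distrib]
  apply Finset.sum_le_sum
  intro j hj
  rw [← mul_neg]
  exact mul_le_mul_of_nonneg_left (I_neg (Finset.mem_Ico.mp hj).1 hx h) (hA j)

def Sp (k : ℕ) : Set (EuclideanSpace ℝ (Fin (k+2))) := ball 0 1 ∩ {x | 1 / 2 < x 1}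
def Sm (k : ℕ) : Set (EuclideanSpace ℝ (Fin (k+2))) := ball 0 1 ∩ {x | x 1 < -(1 / 2)}

lemma Sp_open (k : ℕ) : IsOpen (Sp k) := by
  refine isOpen_ball.inter ?_
  exact isOpen_lt continuous_const (by fun_prop)

lemma Sm_open (k : ℕ) : IsOpen (Sm k) := by
  refine isOpen_ball.inter ?_
  exact isOpen_lt (by fun_prop) continuous_const

lemma Sp_pos (k : ℕ) : 0 < volume (Sp k) := by
  refine (Sp_open k).measure_pos volume ⟨EuclideanSpace.single (1 : Fin (k+2)) (3/4 : ℝ), ?_, ?_⟩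
  · rw [mem_ball, dist_zero_right, PiLp.norm_single, Real.norm_eq_abs, abs_of_pos] <;> norm_num
  · simp only [mem_ofPred_eq, PiLp.single_apply, if_true]; norm_num

lemma Sm_pos (k : ℕ) : 0 < volume (Sm k) := by
  refine (Sm_open k).measure_pos volume ⟨EuclideanSpace.single (1 : Fin (k+2)) (-(3/4) : ℝ), ?_, ?_⟩
  · rw [mem_ball, dist_zero_right, PiLp.norm_single, Real.norm_eq_abs, abs_neg, abs_of_pos] <;> norm_num
  · simp only [mem_ofPred_eq, PiLp.single_apply, if_true]; norm_num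

def kap (k : ℕ) : ℝ≥0∞ :=
  ((volume (ball (0 : EuclideanSpace ℝ (Fin (k+2))) 1))⁻¹ ^ 2 * (volume (Sm k) * volume (Sp k))) ^ (1 / 2 : ℝ)

lemma kap_ne_zero (k : ℕ) : kap k ≠ 0 := by
  unfold kap
  have h1 : (volume (ball (0 : EuclideanSpace ℝ (Fin (k+2))) 1))⁻¹ ≠ 0 :=
    ENNReal.inv_ne_zero.mpr measure_ball_lt_top.ne
  intro h
  rw [ENNReal.rpow_eq_zero_iff] at h
  rcases h with ⟨h, -⟩ | ⟨-, h⟩
  · rw [mul_eq_zero, mul_eq_zero] at h
    rcases h with h | h | h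
    · exact h1 (pow_eq_zero_iff (two_ne_zero) |>.mp h)
    · exact (Sm_pos k).ne' h
    · exact (Sp_pos k).ne' h
  · norm_num at h

lemma kap_ne_top (k : ℕ) : kap k ≠ ⊤ := by
  unfold kap
  have h1 : (volume (ball (0 : EuclideanSpace ℝ (Fin (k+2))) 1))⁻¹ ≠ ⊤ :=
    ENNReal.inv_ne_top.mpr (measure_ball_pos _ _ one_pos).ne'
  have h2 : volume (Sm k) ≠ ⊤ :=
    ((measure_mono inter_subset_left).trans_lt measure_ball_lt_top).ne
  have h3 : volume (Sp k) ≠ ⊤ :=
    ((measure_mono inter_subset_left).trans_lt measure_ball_lt_top).ne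
  apply ENNReal.rpow_ne_top_of_nonneg (by norm_num)
  exact ENNReal.mul_ne_top (ENNReal.pow_ne_top h1) (ENNReal.mul_ne_top h2 h3)

lemma osc_lower {k N : ℕ} {A : ℕ → ℝ} (hA : ∀ j, 0 ≤ A j) :
    kap k * ENNReal.ofReal (2 * Lsum k N A) ≤ oscFar Om (ff k N A) 0 1 := by
  unfold oscFar kap
  set g := farPart Om (ff k N A) 0 1 with hg
  set c : ℝ≥0∞ := ENNReal.ofReal (2 * Lsum k N A) with hc
  have hpt : ∀ x ∈ Sp k, ∀ y ∈ Sm k, c ^ 2 ≤ ‖g x - g y‖ₑ ^ 2 := by
    intro x hx y hy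
    have hx1 : ‖x‖ < 1 := by simpa using hx.1
    have hy1 : ‖y‖ < 1 := by simpa using hy.1
    have a1 := far_pos (N := N) hA hx1 hx.2
    have a2 := far_neg (N := N) hA hy1 hy.2
    have : 2 * Lsum k N A ≤ |g x - g y| := by
      refine le_trans ?_ (le_abs_self _)
      rw [hg]; linarith
    apply pow_le_pow_left'
    rw [hc, ← ofReal_norm]
    exact ENNReal.ofReal_le_ofReal this
  have hint : c ^ 2 * (volume (Sm k) * volume (Sp k)) ≤
      ∫⁻ x in ball (0 : EuclideanSpace ℝ (Fin (k+2))) 1,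
        ∫⁻ y in ball (0 : EuclideanSpace ℝ (Fin (k+2))) 1, ‖g x - g y‖ₑ ^ 2 := by
    calc c ^ 2 * (volume (Sm k) * volume (Sp k)) = ∫⁻ x in Sp k, (c ^ 2 * volume (Sm k)) := by
          rw [setLIntegral_const, mul_assoc]
      _ ≤ ∫⁻ x in Sp k, ∫⁻ y in ball (0 : EuclideanSpace ℝ (Fin (k+2))) 1, ‖g x - g y‖ₑ ^ 2 := by
          apply setLIntegral_mono' (Sp_open k).measurableSet
          intro x hx
          calc c ^ 2 * volume (Sm k) = ∫⁻ y in Sm k, c ^ 2 := by rw [setLIntegral_const]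
            _ ≤ ∫⁻ y in Sm k, ‖g x - g y‖ₑ ^ 2 := by
                apply setLIntegral_mono' (Sm_open k).measurableSet
                intro y hy
                exact hpt x hx y hy
            _ ≤ _ := lintegral_mono_set inter_subset_left
      _ ≤ _ := lintegral_mono_set inter_subset_left
  have e : kap k * c = ((volume (ball (0 : EuclideanSpace ℝ (Fin (k+2))) 1))⁻¹ ^ 2 *
      (c ^ 2 * (volume (Sm k) * volume (Sp k)))) ^ (1 / 2 : ℝ) := by
    unfold kap
    have : c = (c ^ 2) ^ (1/2 : ℝ) := by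
      rw [← ENNReal.rpow_natCast, ← ENNReal.rpow_mul]
      norm_num
    conv_lhs => rw [this]
    rw [← ENNReal.mul_rpow_of_nonneg _ _ (by norm_num)]
    congr 1
    ring
  unfold kap at e
  rw [e]
  apply ENNReal.rpow_le_rpow _ (by norm_num)
  gcongr

lemma mass_lower {k j : ℕ} (hj : 10 ≤ j) :
    (volume (ball (p0 k) (1/4))).toReal / (256 * (j:ℝ) ^ 2) ≤ mass k j := by
  have h := vol_lower (k := k) hj
  have hfin : ((2 * j * (j + 1) * 64 : ℕ) : ℝ≥0∞) *
        (ENNReal.ofReal (((8 * 2 ^ j : ℝ) ^ (k+2))⁻¹) * volume (G k j)) ≠ ⊤ :=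
    ENNReal.mul_ne_top (ENNReal.natCast_ne_top _) (ENNReal.mul_ne_top ENNReal.ofReal_ne_top (G_fin k j))
  have h2 := ENNReal.toReal_mono hfin h
  rw [ENNReal.toReal_mul, ENNReal.toReal_mul, ENNReal.toReal_natCast,
    ENNReal.toReal_ofReal (by positivity)] at h2
  have hj' : (10:ℝ) ≤ j := by exact_mod_cast hj
  have hm : 0 ≤ mass k j := by unfold mass; positivity
  have e : ((8 * 2 ^ j : ℝ) ^ (k+2))⁻¹ * (volume (G k j)).toReal = mass k j := by
    unfold mass; ring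
  rw [e] at h2
  rw [div_le_iff₀ (by positivity)]
  refine h2.trans ?_
  push_cast
  nlinarith [mul_nonneg hm (by nlinarith : (0:ℝ) ≤ j^2 - j)]

def beta (k : ℕ) : ℝ := min 1 ((volume (ball (p0 k) (1/4))).toReal / 256)

lemma beta_pos (k : ℕ) : 0 < beta k := by
  unfold beta
  apply lt_min one_pos
  have : 0 < (volume (ball (p0 k) (1/4))).toReal :=
    ENNReal.toReal_pos (measure_ball_pos _ _ (by norm_num)).ne' measure_ball_lt_top.ne
  positivity

lemma mass_ge {k j : ℕ} (hj : 10 ≤ j) : beta k / (j:ℝ) ^ 2 ≤ mass k j := by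
  refine le_trans ?_ (mass_lower hj)
  rw [← div_div]
  apply div_le_div_of_nonneg_right (min_le_right _ _) (by positivity)

lemma mass_pos {k j : ℕ} (hj : 10 ≤ j) : 0 < mass k j := by
  refine lt_of_lt_of_le ?_ (mass_ge hj)
  have := beta_pos k
  positivity

/-- amplitudes -/
def amp (k : ℕ) (r : ℝ) (j : ℕ) : ℝ := mass k j ^ (-(1 / r))

lemma amp_nonneg (k : ℕ) (r : ℝ) (j : ℕ) : 0 ≤ amp k r j := by
  unfold amp mass; positivity

lemma amp_mass {k j : ℕ} (hj : 10 ≤ j) {r : ℝ} (hr1 : 1 ≤ r) (hr2 : r < 2) :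
    Real.sqrt (beta k) / j ≤ amp k r j * mass k j := by
  have hm := mass_pos (k := k) hj
  have hb := beta_pos k
  have hj' : (10:ℝ) ≤ j := by exact_mod_cast hj
  have e : amp k r j * mass k j = mass k j ^ (1 - 1 / r) := by
    unfold amp
    conv_lhs => rw [← Real.rpow_one (mass k j)]
    rw [← Real.rpow_mul hm.le, ← Real.rpow_add hm]
    congr 1; ring
  rw [e]
  have hr0 : 0 < r := by linarith
  have h1 : 0 ≤ 1 - 1 / r := by
    rw [sub_nonneg, div_le_one hr0]; exact hr1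
  have h2 : 1 - 1 / r ≤ 1 / 2 := by
    have : 1 / 2 ≤ 1 / r := one_div_le_one_div_of_le hr0 hr2.le
    linarith
  have hq : 0 < beta k / (j:ℝ) ^ 2 := by positivity
  have hq1 : beta k / (j:ℝ) ^ 2 ≤ 1 := by
    rw [div_le_one (by positivity)]
    have : beta k ≤ 1 := min_le_left _ _
    nlinarith
  calc Real.sqrt (beta k) / j = (beta k / (j:ℝ) ^ 2) ^ (1 / 2 : ℝ) := by
        rw [← Real.sqrt_eq_rpow, Real.sqrt_div' _ (by positivity), Real.sqrt_sq (by positivity)]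
    _ ≤ (beta k / (j:ℝ) ^ 2) ^ (1 - 1 / r) := Real.rpow_le_rpow_of_exponent_ge hq hq1 h2
    _ ≤ mass k j ^ (1 - 1 / r) := Real.rpow_le_rpow hq.le (mass_ge hj) h1

lemma Dc_pos (k : ℕ) : 0 < Dc k := by unfold Dc; positivity

lemma Lsum_lower {k N : ℕ} {r : ℝ} (hr1 : 1 ≤ r) (hr2 : r < 2) :
    Dc k * Real.sqrt (beta k) * ∑ j ∈ Finset.Ico 10 N, 1 / (j:ℝ) ≤ Lsum k N (amp k r) := by
  unfold Lsum
  rw [Finset.mul_sum]
  apply Finset.sum_le_sum
  intro j hj
  have h := amp_mass (k := k) (Finset.mem_Ico.mp hj).1 hr1 hr2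
  have hD := Dc_pos k
  calc Dc k * Real.sqrt (beta k) * (1 / (j:ℝ)) = Dc k * (Real.sqrt (beta k) / j) := by ring
    _ ≤ Dc k * (amp k r j * mass k j) := mul_le_mul_of_nonneg_left h hD.le
    _ = _ := by ring

lemma Lsum_tendsto (k : ℕ) {r : ℝ} (hr1 : 1 ≤ r) (hr2 : r < 2) :
    Tendsto (fun N => Lsum k N (amp k r)) atTop atTop := by
  have hc : 0 < Dc k * Real.sqrt (beta k) := mul_pos (Dc_pos k) (Real.sqrt_pos.mpr (beta_pos k))
  apply tendsto_atTop_mono (f := fun N : ℕ => Dc k * Real.sqrt (beta k) * ∑ j ∈ Finset.Ico 10 N, 1 / (j:ℝ))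
    (fun N => Lsum_lower hr1 hr2)
  apply Tendsto.const_mul_atTop hc
  have h1 : Tendsto (fun N : ℕ => ∑ j ∈ Finset.range N, 1 / (j:ℝ)) atTop atTop := by
    have := Real.tendsto_sum_range_one_div_nat_succ_atTop
    have h2 := (tendsto_add_atTop_iff_nat (f := fun N : ℕ => ∑ j ∈ Finset.range N, 1 / (j:ℝ)) 1 (l := atTop)).mp ?_
    · exact h2
    · convert this using 2 with N
      rw [Finset.sum_range_succ']
      simp
  have h3 : Tendsto (fun N : ℕ => ∑ j ∈ Finset.range N, 1 / (j:ℝ) - ∑ j ∈ Finset.range 10, 1 / (j:ℝ)) atTop atTop :=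
    tendsto_atTop_add_const_right _ _ h1
  refine h3.congr' ?_
  filter_upwards [eventually_ge_atTop 10] with N hN
  rw [Finset.sum_Ico_eq_sub _ hN]

lemma geom_sum_bound {s : ℝ} (hs : 0 ≤ s) (N : ℕ) :
    ∑ j ∈ Finset.range N, (if (8:ℝ) * 2 ^ j ≤ s then (8:ℝ) * 2 ^ j else 0) ≤ 2 * s ∧
    ∑ j ∈ Finset.range N, (if (8:ℝ) * 2 ^ j ≤ s then (8:ℝ) * 2 ^ j else 0) ≤ 8 * 2 ^ N := by
  induction N with
  | zero => simp; linarith
  | succ n ih =>
    rw [Finset.sum_range_succ]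
    have hp : (0:ℝ) < 2 ^ n := by positivity
    split_ifs with h
    · constructor
      · linarith [ih.2]
      · rw [pow_succ]; linarith [ih.2]
    · constructor
      · linarith [ih.1]
      · rw [pow_succ]; linarith [ih.2]

lemma geom_sum_bound' {s : ℝ} (hs : 0 ≤ s) (k N : ℕ) :
    ∑ j ∈ Finset.Ico 10 N, (if (8:ℝ) * 2 ^ j ≤ s then ((8:ℝ) * 2 ^ j) ^ (k+2) else 0) ≤ 2 * s ^ (k+2) := by
  have h1 : ∑ j ∈ Finset.Ico 10 N, (if (8:ℝ) * 2 ^ j ≤ s then ((8:ℝ) * 2 ^ j) ^ (k+2) else 0) ≤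
      ∑ j ∈ Finset.range N, (if (8:ℝ) * 2 ^ j ≤ s then ((8:ℝ) * 2 ^ j) ^ (k+2) else 0) := by
    apply Finset.sum_le_sum_of_subset_of_nonneg
    · intro j hj
      exact Finset.mem_range.mpr (Finset.mem_Ico.mp hj).2
    · intro j _ _
      split_ifs <;> positivity
  have h2 : ∀ j ∈ Finset.range N, (if (8:ℝ) * 2 ^ j ≤ s then ((8:ℝ) * 2 ^ j) ^ (k+2) else 0) ≤
      s ^ (k+1) * (if (8:ℝ) * 2 ^ j ≤ s then (8:ℝ) * 2 ^ j else 0) := by
    intro j _
    split_ifs with h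
    · rw [pow_succ]
      apply mul_le_mul_of_nonneg_right _ (by positivity)
      exact pow_le_pow_left₀ (by positivity) h _
    · simp
  calc _ ≤ _ := h1
    _ ≤ _ := Finset.sum_le_sum h2
    _ = s ^ (k+1) * ∑ j ∈ Finset.range N, (if (8:ℝ) * 2 ^ j ≤ s then (8:ℝ) * 2 ^ j else 0) := by
        rw [Finset.mul_sum]
    _ ≤ s ^ (k+1) * (2 * s) := mul_le_mul_of_nonneg_left (geom_sum_bound hs N).1 (by positivity)
    _ = _ := by ring

lemma G_disj {k i j : ℕ} (hij : i < j) {y : EuclideanSpace ℝ (Fin (k+2))} (hi : y ∈ G k i)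
    (hj : y ∈ G k j) : False := by
  have h1 := hi.2.1
  have h2 := hj.1
  have h3 : (2:ℝ) ^ (i+1) ≤ 2 ^ j := pow_le_pow_right₀ (by norm_num) hij
  rw [pow_succ] at h3
  linarith

lemma ff_pow {k N : ℕ} {r : ℝ} (hr : 0 < r) {A : ℕ → ℝ} (hA : ∀ j, 0 ≤ A j)
    (y : EuclideanSpace ℝ (Fin (k+2))) :
    ‖ff k N A y‖ₑ ^ r ≤ ∑ j ∈ Finset.Ico 10 N, (G k j).indicator (fun _ => ENNReal.ofReal (A j) ^ r) y := by
  by_cases h : ∃ j ∈ Finset.Ico 10 N, y ∈ G k j
  · obtain ⟨j, hj, hy⟩ := h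
    have e : ff k N A y = A j := by
      unfold ff
      rw [Finset.sum_eq_single j]
      · simp [hy]
      · intro i _ hij
        apply indicator_of_notMem
        intro hi
        rcases lt_or_gt_of_ne hij with h | h
        · exact G_disj h hi hy
        · exact G_disj h hy hi
      · intro h; exact absurd hj h
    rw [e]
    refine le_trans ?_ (Finset.single_le_sum (f := fun j => (G k j).indicator
      (fun _ => ENNReal.ofReal (A j) ^ r) y) (fun _ _ => zero_le) hj)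
    simp only [indicator_of_mem hy]
    rw [← ofReal_norm, Real.norm_of_nonneg (hA j)]
  · push Not at h
    have e : ff k N A y = 0 := by
      unfold ff
      apply Finset.sum_eq_zero
      intro j hj
      exact indicator_of_notMem (h j hj) _
    rw [e]
    simp [hr]

lemma maxAvg_upper {k N : ℕ} {r : ℝ} (hr : 1 ≤ r) :
    maxAvg r (ff k N (amp k r)) 0 1 ≤
      max 1 (2 * 2 ^ (k+2) / volume (ball (0 : EuclideanSpace ℝ (Fin (k+2))) 1)) := by
  unfold maxAvg
  refine iSup_le fun z => iSup_le fun t => iSup_le fun hzt => ?_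
  have hr0 : 0 < r := by linarith
  have h0 : (0 : EuclideanSpace ℝ (Fin (k+2))) ∈ ball z t := hzt (mem_ball_self one_pos)
  have ht : 0 < t := pos_of_mem_ball h0
  have hV : volume (ball (0 : EuclideanSpace ℝ (Fin (k+2))) 1) ≠ 0 := (measure_ball_pos _ _ one_pos).ne'
  have hV' : volume (ball (0 : EuclideanSpace ℝ (Fin (k+2))) 1) ≠ ⊤ := measure_ball_lt_top.ne
  have hint : ∫⁻ y in ball z t, ‖ff k N (amp k r) y‖ₑ ^ r ≤ ENNReal.ofReal (2 * (2 * t) ^ (k+2)) := by
    calc ∫⁻ y in ball z t, ‖ff k N (amp k r) y‖ₑ ^ r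
        ≤ ∫⁻ y in ball z t, ∑ j ∈ Finset.Ico 10 N,
            (G k j).indicator (fun _ => ENNReal.ofReal (amp k r j) ^ r) y :=
          lintegral_mono fun y => ff_pow hr0 (amp_nonneg k r) y
      _ = ∑ j ∈ Finset.Ico 10 N, ∫⁻ y in ball z t,
            (G k j).indicator (fun _ => ENNReal.ofReal (amp k r j) ^ r) y := by
          rw [lintegral_finsetSum]
          intro j _
          exact measurable_const.indicator (G_meas k j)
      _ ≤ ∑ j ∈ Finset.Ico 10 N, ENNReal.ofReal (if (8:ℝ) * 2 ^ j ≤ 2 * t then ((8:ℝ) * 2 ^ j) ^ (k+2) else 0) := by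
          apply Finset.sum_le_sum
          intro j hj
          rw [lintegral_indicator (G_meas k j), lintegral_const, Measure.restrict_apply_univ, 
            Measure.restrict_apply (G_meas k j)] 
          by_cases hne : (G k j ∩ ball z t).Nonempty
          · obtain ⟨y, hy1, hy2⟩ := hne
            have hR : (8:ℝ) * 2 ^ j ≤ 2 * t := by
              have h1 := G_norm_lower hy1
              have h2 : dist y 0 < 2 * t := by
                have a1 : dist y z < t := hy2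
                have a2 : dist z 0 < t := by rw [dist_comm]; exact h0
                linarith [dist_triangle y z 0]
              rw [dist_zero_right] at h2
              linarith
            rw [if_pos hR]
            have hm := mass_pos (k := k) (Finset.mem_Ico.mp hj).1
            have e1 : ENNReal.ofReal (amp k r j) ^ r = ENNReal.ofReal ((mass k j)⁻¹) := by
              rw [ENNReal.ofReal_rpow_of_nonneg (amp_nonneg k r j) hr0.le]
              congr 1
              unfold amp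
              rw [← Real.rpow_mul hm.le]
              have : -(1 / r) * r = -1 := by field_simp
              rw [this, Real.rpow_neg_one]
            rw [e1]
            calc ENNReal.ofReal ((mass k j)⁻¹) * volume (G k j ∩ ball z t)
                ≤ ENNReal.ofReal ((mass k j)⁻¹) * volume (G k j) := by
                  gcongr; exact inter_subset_left
              _ = ENNReal.ofReal ((mass k j)⁻¹) * ENNReal.ofReal (volume (G k j)).toReal := by
                  rw [ENNReal.ofReal_toReal (G_fin k j)]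
              _ = ENNReal.ofReal ((mass k j)⁻¹ * (volume (G k j)).toReal) := by
                  rw [ENNReal.ofReal_mul (by positivity)]
              _ = ENNReal.ofReal (((8:ℝ) * 2 ^ j) ^ (k+2)) := by
                  congr 1
                  have hv : (volume (G k j)).toReal ≠ 0 := by
                    intro h
                    unfold mass at hm
                    rw [h] at hm
                    simp at hm
                  unfold mass
                  rw [inv_div, div_mul_cancel₀ _ hv]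
              _ ≤ _ := le_rfl
          · rw [not_nonempty_iff_eq_empty] at hne
            rw [hne, measure_empty, mul_zero]
            exact zero_le
      _ = ENNReal.ofReal (∑ j ∈ Finset.Ico 10 N, (if (8:ℝ) * 2 ^ j ≤ 2 * t then ((8:ℝ) * 2 ^ j) ^ (k+2) else 0)) := by
          rw [ENNReal.ofReal_sum_of_nonneg]
          intro j _
          split_ifs <;> positivity
      _ ≤ _ := ENNReal.ofReal_le_ofReal (geom_sum_bound' (by positivity) k N)
  have hball : volume (ball z t) = ENNReal.ofReal (t ^ (k+2)) * volume (ball (0 : EuclideanSpace ℝ (Fin (k+2))) 1) := by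
    rw [Measure.addHaar_ball volume z ht.le]
    simp
  have hQ : (volume (ball z t))⁻¹ * ∫⁻ y in ball z t, ‖ff k N (amp k r) y‖ₑ ^ r ≤
      2 * 2 ^ (k+2) / volume (ball (0 : EuclideanSpace ℝ (Fin (k+2))) 1) := by
    calc (volume (ball z t))⁻¹ * ∫⁻ y in ball z t, ‖ff k N (amp k r) y‖ₑ ^ r
        ≤ (volume (ball z t))⁻¹ * ENNReal.ofReal (2 * (2 * t) ^ (k+2)) := by gcongr
      _ = (ENNReal.ofReal (t ^ (k+2)) * volume (ball (0 : EuclideanSpace ℝ (Fin (k+2))) 1))⁻¹ *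
          ENNReal.ofReal (t ^ (k+2) * (2 * 2 ^ (k+2))) := by
          rw [hball]
          congr 2
          rw [mul_pow]; ring
      _ = 2 * 2 ^ (k+2) / volume (ball (0 : EuclideanSpace ℝ (Fin (k+2))) 1) := by
          have ht' : ENNReal.ofReal (t ^ (k+2)) ≠ 0 := by
            rw [Ne, ENNReal.ofReal_eq_zero, not_le]; positivity
          have e2 : ENNReal.ofReal (2 * 2 ^ (k+2)) = 2 * 2 ^ (k+2) := by
            rw [ENNReal.ofReal_mul (by norm_num), ENNReal.ofReal_pow (by norm_num)]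
            simp
          rw [ENNReal.ofReal_mul (by positivity), e2, ENNReal.mul_inv (Or.inl ht') (Or.inl ENNReal.ofReal_ne_top)]
          rw [show ∀ a b c d : ℝ≥0∞, a⁻¹ * b * (a * c) = (a⁻¹ * a) * (c * b) from by
            intro a b c d; ring]
          · rw [ENNReal.inv_mul_cancel ht' ENNReal.ofReal_ne_top, one_mul, div_eq_mul_inv]
          · exact 0
  calc ((volume (ball z t))⁻¹ * ∫⁻ y in ball z t, ‖ff k N (amp k r) y‖ₑ ^ r) ^ (1 / r)
      ≤ (max 1 (2 * 2 ^ (k+2) / volume (ball (0 : EuclideanSpace ℝ (Fin (k+2))) 1))) ^ (1 / r) := by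
        apply ENNReal.rpow_le_rpow (hQ.trans (le_max_right _ _)) (by positivity)
    _ ≤ (max 1 (2 * 2 ^ (k+2) / volume (ball (0 : EuclideanSpace ℝ (Fin (k+2))) 1))) ^ (1 : ℝ) := by
        apply ENNReal.rpow_le_rpow_of_exponent_le (le_max_left _ _)
        rw [div_le_one hr0]; exact hr
    _ = _ := ENNReal.rpow_one _

lemma ff_meas (k N : ℕ) (A : ℕ → ℝ) : Measurable (ff k N A) := by
  unfold ff
  apply Finset.measurable_sum
  intro j _
  exact measurable_const.indicator (G_meas k j)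

lemma ff_bdd (k N : ℕ) (A : ℕ → ℝ) (y : EuclideanSpace ℝ (Fin (k+2))) :
    |ff k N A y| ≤ ∑ j ∈ Finset.Ico 10 N, |A j| := by
  unfold ff
  refine (Finset.abs_sum_le_sum_abs _ _).trans ?_
  apply Finset.sum_le_sum
  intro j _
  by_cases h : y ∈ G k j
  · simp [h]
  · simp [h]

lemma ff_supp (k N : ℕ) (A : ℕ → ℝ) : HasCompactSupport (ff k N A) := by
  apply HasCompactSupport.of_support_subset_isCompact
    (isCompact_closedBall (0 : EuclideanSpace ℝ (Fin (k+2))) (((k:ℝ)+2) * (16 * 2 ^ N)))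
  intro y hy
  rw [Function.mem_support] at hy
  have : ∃ j ∈ Finset.Ico 10 N, y ∈ G k j := by
    by_contra h
    push Not at h
    apply hy
    unfold ff
    apply Finset.sum_eq_zero
    intro j hj
    exact indicator_of_notMem (h j hj) _
  obtain ⟨j, hj, hyj⟩ := this
  rw [mem_closedBall, dist_zero_right]
  refine (G_norm_upper hyj).trans ?_
  have : (2:ℝ) ^ j ≤ 2 ^ N := pow_le_pow_right₀ (by norm_num) (Finset.mem_Ico.mp hj).2.le
  gcongr

theorem key_step (k : ℕ) {r : ℝ} (hr1 : 1 ≤ r) (hr2 : r < 2) (C : ℝ≥0) :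
    ∃ f : EuclideanSpace ℝ (Fin (k+2)) → ℝ, Measurable f ∧ (∃ M : ℝ, ∀ y, |f y| ≤ M) ∧
      HasCompactSupport f ∧ C * maxAvg r f 0 1 < oscFar Om f 0 1 := by
  set Q : ℝ≥0∞ := max 1 (2 * 2 ^ (k+2) / volume (ball (0 : EuclideanSpace ℝ (Fin (k+2))) 1)) with hQ
  have hQtop : Q ≠ ⊤ := by
    rw [hQ]
    simp only [ne_eq, max_eq_top, ENNReal.one_ne_top, false_or]
    apply ENNReal.div_ne_top
    · exact ENNReal.mul_ne_top (by norm_num) (ENNReal.pow_ne_top (by norm_num))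
    · exact (measure_ball_pos _ _ one_pos).ne'
  have hM : (C * Q) / kap k ≠ ⊤ :=
    ENNReal.div_ne_top (ENNReal.mul_ne_top ENNReal.coe_ne_top hQtop) (kap_ne_zero k)
  have hL := Lsum_tendsto k hr1 hr2
  obtain ⟨N, hN⟩ := ((tendsto_atTop.mp hL) (((C * Q) / kap k).toReal + 1)).exists
  refine ⟨ff k N (amp k r), ff_meas _ _ _, ⟨_, ff_bdd k N (amp k r)⟩, ff_supp _ _ _, ?_⟩
  calc C * maxAvg r (ff k N (amp k r)) 0 1 ≤ C * Q := by gcongr; exact maxAvg_upper hr1
    _ = kap k * ((C * Q) / kap k) := by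
        rw [ENNReal.mul_div_cancel (kap_ne_zero k) (kap_ne_top k)]
    _ < kap k * ENNReal.ofReal (2 * Lsum k N (amp k r)) := by
        apply ENNReal.mul_lt_mul_right (kap_ne_zero k) (kap_ne_top k)
        rw [ENNReal.lt_ofReal_iff_toReal_lt hM]
        have := ENNReal.toReal_nonneg (a := (C * Q) / kap k)
        linarith
    _ ≤ _ := osc_lower (amp_nonneg k r)

end

/-- For every dimension d at least 2 there is one bounded measurable mean-zero Omega on the unit sphere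
for which the oscillation inequality fails for every exponent r in [1,2). -/
theorem result (d : ℕ) (hd : 2 ≤ d) :
    ∃ Ω : EuclideanSpace ℝ (Fin d) → ℝ, Measurable Ω ∧ (∀ w, |Ω w| ≤ 1) ∧
      (∫ w : sphere (0 : EuclideanSpace ℝ (Fin d)) 1, Ω w
        ∂(volume : Measure (EuclideanSpace ℝ (Fin d))).toSphere = 0) ∧
      ∀ r : ℝ, 1 ≤ r → r < 2 →
        ¬ ∃ C : ℝ≥0, ∀ (c : EuclideanSpace ℝ (Fin d)) (ρ : ℝ), 0 < ρ →
          ∀ f : EuclideanSpace ℝ (Fin d) → ℝ, Measurable f → (∃ M : ℝ, ∀ y, |f y| ≤ M) →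
            HasCompactSupport f → oscFar Ω f c ρ ≤ C * maxAvg r f c ρ := by
  obtain ⟨k, rfl⟩ : ∃ k, d = k + 2 := ⟨d - 2, by omega⟩
  refine ⟨Om, Om_meas, Om_abs, Om_mean, ?_⟩
  rintro r hr1 hr2 ⟨C, hC⟩
  obtain ⟨f, hf1, hf2, hf3, hf4⟩ := key_step k hr1 hr2 C
  exact absurd (hC 0 1 one_pos f hf1 hf2 hf3) (not_le.mpr hf4)

end Pool.Agent.Results.MP_577a3c_an.RoughOsc
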